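import Mathlib
import Pool.Agent.Helper76.SP.Gen

/-!
Let `n ≥ 5` be prime, `z` a primitive `n`-th root of unity, and `L/F` a finite Galois extension with
`z ∈ L` whose group is `C_m` or the dihedral group `D_m`, `m ∈ {1, 2, 3, 4, 6}`: the group of
`L/F(z)` is cyclic of order `m`, and the other elements of `Gal(L/F)` are involutions which map `z`
to `z⁻¹`.

A division algebra `A` of degree `n` over `F` is cyclic if `L ⊗ A` is a symbol algebra, generated by
`x`, `y` with `x ^ n = a`, `y ^ n = b`, `x y = z y x`, and `Gal(L/F)` stabilises the subgroup of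
`Lˣ / Lˣⁿ` generated by `a` and `b`.
-/

open TensorProduct IntermediateField

universe u

theorem Pool.Agent.Results.MP_5d2531_al.CrystallographicSymbols.result
    {F L A : Type u} [Field F] [Field L] [Algebra F L] [Module.Finite F L] [IsGalois F L]
    [DivisionRing A] [Algebra F A] [Algebra.IsCentral F A]
    {n : ℕ} (hn : n.Prime) (h5 : 5 ≤ n) (hA : Module.finrank F A = n ^ 2)
    {z : L} (hz : IsPrimitiveRoot z n)
    -- the group of `L/F` is cyclic or dihedral
    (hcyc : IsCyclic (L ≃ₐ[F⟮z⟯] L)) (hm : Module.finrank F⟮z⟯ L ∈ ({1, 2, 3, 4, 6} : Finset ℕ))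
    (href : ∀ g : L ≃ₐ[F] L, g z ≠ z → g z = z⁻¹ ∧ g * g = 1)
    -- over `L` the algebra is a symbol algebra with a stable group `⟨a, b⟩`
    {a b : L} (ha : a ≠ 0) (hb : b ≠ 0) {x y : L ⊗[F] A}
    (hx : x ^ n = algebraMap L (L ⊗[F] A) a) (hy : y ^ n = algebraMap L (L ⊗[F] A) b)
    (hxy : x * y = z • (y * x))
    (hV : ∀ g : L ≃ₐ[F] L, (∃ (i j : ℤ) (c : L), g a = a ^ i * b ^ j * c ^ n) ∧
      ∃ (i j : ℤ) (c : L), g b = a ^ i * b ^ j * c ^ n) :
    ∃ (K : Subalgebra F A) (hK : IsField K), Module.finrank F K = n ∧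
      (letI := hK.toField; IsGalois F K ∧ IsCyclic (K ≃ₐ[F] K)) := by
  have hfin : Module.Finite F A := Module.finite_of_finrank_pos (by rw [hA]; positivity [hn.pos])
  have hm' : Module.finrank F⟮z⟯ L = 1 ∨ Module.finrank F⟮z⟯ L = 2 ∨ Module.finrank F⟮z⟯ L = 3 ∨
      Module.finrank F⟮z⟯ L = 4 ∨ Module.finrank F⟮z⟯ L = 6 := by
    simpa using hm
  -- `n` does not divide the degree
  have hint : IsIntegral F z := Algebra.IsIntegral.isIntegral z
  have hdeg : (minpoly F z).natDegree < n := by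
    have h1 : minpoly F z ∣ Polynomial.cyclotomic n F := by
      apply minpoly.dvd
      rw [Polynomial.aeval_def, Polynomial.eval₂_eq_eval_map, Polynomial.map_cyclotomic]
      exact hz.isRoot_cyclotomic hn.pos
    have h2 := Polynomial.natDegree_le_of_dvd h1 (Polynomial.cyclotomic_ne_zero n F)
    rw [Polynomial.natDegree_cyclotomic, Nat.totient_prime hn] at h2
    omega
  have hL : ¬ n ∣ Module.finrank F L := by
    intro h
    rw [← Module.finrank_mul_finrank F F⟮z⟯ L, IntermediateField.adjoin.finrank hint] at h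
    rcases hn.dvd_mul.mp h with h1 | h1
    · exact absurd (Nat.le_of_dvd (minpoly.natDegree_pos hint) h1) (by omega)
    · have h2 : n ≤ 6 := by
        have := Nat.le_of_dvd (by omega) h1
        omega
      interval_cases n
      · omega
      · exact absurd hn (by norm_num)
  -- the generator of the rotations
  obtain ⟨τ, hτ⟩ := hcyc.exists_generator
  let e := IntermediateField.fixingSubgroupEquiv F⟮z⟯
  let σ : L ≃ₐ[F] L := (e.symm τ : F⟮z⟯.fixingSubgroup)
  have hfix : ∀ g : L ≃ₐ[F] L, g z = z ↔ g ∈ F⟮z⟯.fixingSubgroup := by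
    intro g
    constructor
    · intro hg
      have h1 : F⟮z⟯ ≤ IntermediateField.fixedField (Subgroup.zpowers g) := by
        rw [IntermediateField.adjoin_simple_le_iff, IntermediateField.mem_fixedField_iff]
        intro f hf
        obtain ⟨k, rfl⟩ := Subgroup.mem_zpowers_iff.mp hf
        have h2 : ∀ k : ℕ, (g ^ k) z = z := by
          intro k
          induction k with
          | zero => simp
          | succ k ih => rw [pow_succ, AlgEquiv.mul_apply, hg, ih]
        obtain ⟨k, rfl | rfl⟩ := k.eq_nat_or_neg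
        · rw [zpow_natCast]; exact h2 k
        · rw [zpow_neg, zpow_natCast]
          have h3 : (g ^ k)⁻¹ ((g ^ k) z) = z := by
            rw [← AlgEquiv.mul_apply, inv_mul_cancel, AlgEquiv.one_apply]
          rwa [h2 k] at h3
      exact (IntermediateField.le_iff_le _ _).mp h1 (Subgroup.mem_zpowers g)
    · intro hg
      exact (IntermediateField.mem_fixingSubgroup_iff _ _).mp hg z
        (IntermediateField.mem_adjoin_simple_self F z)
  have hrot : ∀ g : L ≃ₐ[F] L, g z = z → ∃ k : ℕ, g = σ ^ k := by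
    intro g hg
    have h1 := (hfix g).mp hg
    have h2 : e ⟨g, h1⟩ ∈ Submonoid.powers τ := mem_powers_iff_mem_zpowers.mpr (hτ _)
    obtain ⟨k, hk⟩ := h2
    refine ⟨k, ?_⟩
    have h3 : (⟨g, h1⟩ : F⟮z⟯.fixingSubgroup) = e.symm τ ^ k := by
      rw [← map_pow]
      exact (e.symm_apply_eq.mpr hk).symm
    exact congrArg Subtype.val h3
  have hσz : σ z = z := (hfix σ).mpr (e.symm τ).2
  have hσm : σ ^ Module.finrank F⟮z⟯ L = 1 := by
    have h1 : τ ^ Module.finrank F⟮z⟯ L = 1 := by
      rw [← IsGalois.card_aut_eq_finrank F⟮z⟯ L]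
      exact pow_card_eq_one'
    have h2 : (e.symm τ) ^ Module.finrank F⟮z⟯ L = 1 := by
      rw [← map_pow, h1, map_one]
    exact congrArg Subtype.val h2
  obtain ⟨u, -, -, h⟩ := Pool.Agent.Helper76.SP.gen hn h5 hL hA hz ha hb hx hy hxy hV σ hσz
    (Module.finrank F⟮z⟯ L) hm' ⟨⟨1, by rw [hσm]; simp⟩, 1, by rw [hσm]; simp⟩
    (fun g hg => by
      obtain ⟨k, rfl⟩ := hrot g hg
      exact ⟨k, ⟨1, by simp⟩, 1, by simp⟩)
    (fun g hg => by
      obtain ⟨h1, h2⟩ := href g hg
      refine ⟨h1, ⟨1, ?_⟩, 1, ?_⟩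
      · rw [← AlgEquiv.mul_apply, h2]; simp
      · rw [← AlgEquiv.mul_apply, h2]; simp)
  obtain ⟨K, hK, h1, h2, -⟩ := h fun t ht => isUnit_iff_ne_zero.mpr ht
  exact ⟨K, hK, h1, h2⟩
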