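import Mathlib
import Pool.Agent.Helper96.AL.C5
import Pool.Agent.Helper96.AL.T4
import Pool.Agent.Helper96.AL.T5
import Pool.Agent.Helper96.AL.T6

/-!
Every central division algebra of degree 5 over any field is cyclic.
-/

universe u v

theorem Pool.Agent.Results.MP_5d2531_al.CyclicDegreeFive.result (F : Type u) (D : Type v)
    [Field F] [DivisionRing D] [Algebra F D] [hcen : Algebra.IsCentral F D]
    (hdim : Module.finrank F D = 25) :
    ∃ (L : Subalgebra F D) (hL : IsField L) (u : D),
      Module.finrank F L = 5 ∧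
      (letI := hL.toField; IsGalois F L ∧ IsCyclic (L ≃ₐ[F] L)) ∧
      (∀ x ∈ L, u * x * u⁻¹ ∈ L) ∧ (∃ x ∈ L, u * x ≠ x * u) ∧
      ∃ c : F, u ^ 5 = algebraMap F D c := by
  have hc : ∀ x : D, (∀ y, x * y = y * x) → ∃ c : F, algebraMap F D c = x := by
    intro x hx
    have h1 : x ∈ Subalgebra.center F D := by
      rw [Subalgebra.mem_center_iff]
      exact fun y => (hx y).symm
    have h2 := hcen.out h1
    rw [Algebra.mem_bot] at h2
    obtain ⟨c, hc⟩ := h2
    exact ⟨c, hc⟩
  obtain ⟨u, hu, hu5⟩ := Pool.Agent.Helper96.AL.exists_five_central hc hdim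
  have key : ∃ w : D, u * w ≠ w * u ∧ (u * w * u⁻¹) * w = w * (u * w * u⁻¹) := by
    by_cases h5 : (5 : F) = 0
    · haveI : CharP F 5 := by
        have h : ringChar F = 5 := by
          have h1 : ((5 : ℕ) : F) = 0 := by exact_mod_cast h5
          have h2 := (ringChar.spec F 5).1 h1
          rcases (Nat.dvd_prime Nat.prime_five).1 h2 with h3 | h3
          · exact absurd h3 (CharP.ringChar_ne_one)
          · exact h3
        rw [← h]
        infer_instance
      obtain ⟨w, hw⟩ := Pool.Agent.Helper96.AL.albert_five hc hu hu5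
      have hu0 : u ≠ 0 := by
        intro h0
        exact hu 0 (by rw [h0, map_zero])
      refine ⟨w, ?_, ?_⟩
      · intro h
        rw [h, mul_inv_cancel_right₀ hu0] at hw
        exact one_ne_zero (left_eq_add.1 hw)
      · rw [hw, add_mul, mul_add, one_mul, mul_one]
    · exact Pool.Agent.Helper96.AL.albert_ne_five h5 hc hdim hu hu5
  obtain ⟨w, hw1, hw2⟩ := key
  obtain ⟨L, hL, hL5, hwL, hst, hgal⟩ := Pool.Agent.Helper96.AL.exists_cyclic hc hdim hu5 hw1 hw2
  exact ⟨L, hL, u, hL5, hgal, hst, ⟨w, hwL, hw1⟩, hu5⟩
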