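import Mathlib
import Pool.Agent.Helper76.C5.Final

/-!
For every infinite field `K`, of any characteristic, there is a `5`-central polynomial for
`M_5(K)`: a noncommutative polynomial `p` such that `p^5` takes only scalar values on `M_5(K)` and
is not identically zero, while no `p^ν` with `1 ≤ ν < 5` has this property.
-/

open Pool.Agent.Helper58.CY

/-- `p` is central for `M_n(K)`: every value is a scalar matrix and `p` is not identically zero -/
def Pool.Agent.Results.MP_5d2531_al.FiveCentral.IsCentral {K : Type*} [Field K] (n : ℕ)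
    {X : Type*} (p : FreeAlgebra K X) : Prop :=
  (∀ a : X → Matrix (Fin n) (Fin n) K, ∃ c : K, FreeAlgebra.lift K a p = Matrix.scalar (Fin n) c) ∧
    ∃ a : X → Matrix (Fin n) (Fin n) K, FreeAlgebra.lift K a p ≠ 0

/-- `p` is `ν`-central for `M_n(K)`: `ν` is the least positive integer such that `p^ν` is central -/
def Pool.Agent.Results.MP_5d2531_al.FiveCentral.IsNuCentral {K : Type*} [Field K] (n ν : ℕ)
    {X : Type*} (p : FreeAlgebra K X) : Prop :=
  0 < ν ∧ Pool.Agent.Results.MP_5d2531_al.FiveCentral.IsCentral n (p ^ ν) ∧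
    ∀ μ : ℕ, 0 < μ → μ < ν →
      ¬ Pool.Agent.Results.MP_5d2531_al.FiveCentral.IsCentral n (p ^ μ)

theorem Pool.Agent.Results.MP_5d2531_al.FiveCentral.result
    (K : Type*) [Field K] [Infinite K] :
    ∃ (m : ℕ) (p : FreeAlgebra K (Fin m)),
      Pool.Agent.Results.MP_5d2531_al.FiveCentral.IsNuCentral 5 5 p := by
  obtain ⟨P, h5, ⟨a0, ha0⟩, hlt⟩ := Pool.Agent.Helper76.C5.final K
  let e : Idx ≃ Fin 25 := Fintype.equivFinOfCardEq (by simp)
  have key : ∀ (Q : FreeAlgebra K Idx) (a : Fin 25 → M5 K),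
      FreeAlgebra.lift K a (FreeAlgebra.lift K (fun i => FreeAlgebra.ι K (e i)) Q) =
        FreeAlgebra.lift K (fun i => a (e i)) Q := by
    intro Q a
    have : (FreeAlgebra.lift K a).comp (FreeAlgebra.lift K (fun i => FreeAlgebra.ι K (e i))) =
        FreeAlgebra.lift K (fun i => a (e i)) := by
      apply FreeAlgebra.hom_ext
      ext i : 1
      simp
    exact DFunLike.congr_fun this Q
  refine ⟨25, FreeAlgebra.lift K (fun i => FreeAlgebra.ι K (e i)) P, by norm_num, ⟨?_, ?_⟩, ?_⟩
  · intro a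
    obtain ⟨c, hc⟩ := h5 (fun i => a (e i))
    refine ⟨c, ?_⟩
    rw [← map_pow, key, hc, Matrix.scalar_apply, Matrix.smul_one_eq_diagonal]
  · refine ⟨fun i => a0 (e.symm i), ?_⟩
    rw [← map_pow, key]
    simpa using ha0
  · intro μ hμ hμ5 hcen
    apply hlt μ hμ hμ5
    intro a
    obtain ⟨c, hc⟩ := hcen.1 (fun i => a (e.symm i))
    refine ⟨c, ?_⟩
    rw [← map_pow, key] at hc
    simp only [Equiv.symm_apply_apply] at hc
    rw [hc, Matrix.scalar_apply, Matrix.smul_one_eq_diagonal]
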