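import Mathlib
import Pool.Agent.Helper96.BJ7.Z3

/-!
Every division algebra of odd prime degree `n`, over any field `F`, contains an element of degree
`n` whose minimal polynomial has the coefficient `0` at `X^(n-1)`, `X^(n-2)` and `X`; for `n = 7`
also one with the coefficient `0` at `X^6`, `X^5` and `X^4`. The same in generic form, for every odd
`n`: a noncommutative polynomial which is not scalar valued on `M_n(K)`, such that these
coefficients of the characteristic polynomials of all its values vanish.
-/

universe u v w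

namespace Pool.Agent.Results.MP_5d2531_al.ThreeCoefficients

/-- Some element of `D` has a minimal polynomial over `F` of degree `n` whose coefficients at `X^j`,
`j ∈ S`, are zero. -/
def HasElement (F : Type v) (D : Type w) [Field F] [DivisionRing D] [Algebra F D] (n : ℕ)
    (S : Finset ℕ) : Prop :=
  ∃ x : D, (minpoly F x).natDegree = n ∧ ∀ j ∈ S, (minpoly F x).coeff j = 0

/-- Some noncommutative polynomial `p` in `n²` variables over `K` has a value on the `n × n`
matrices which is not scalar, and the characteristic polynomials of all its values there have the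
coefficient zero at `X^j`, `j ∈ S`. -/
def HasPolynomial (K : Type u) [Field K] (n : ℕ) (S : Finset ℕ) : Prop :=
  ∃ p : FreeAlgebra K (Fin (n * n)),
    (∃ v : Fin (n * n) → Matrix (Fin n) (Fin n) K, ∀ c : K,
      FreeAlgebra.lift K v p ≠ Matrix.scalar (Fin n) c) ∧
    ∀ v : Fin (n * n) → Matrix (Fin n) (Fin n) K, ∀ j ∈ S,
      (FreeAlgebra.lift K v p).charpoly.coeff j = 0

theorem result :
    -- (1) division algebras of odd prime degree
    (∀ n : ℕ, n.Prime → 3 ≤ n → ∀ (F : Type v) (D : Type w) [Field F] [DivisionRing D]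
      [Algebra F D] [Algebra.IsCentral F D], Module.finrank F D = n * n →
      HasElement F D n {n - 1, n - 2, 1} ∧ (n = 7 → HasElement F D 7 {6, 5, 4})) ∧
    -- (2) noncommutative polynomials, every odd `n`
    (∀ n : ℕ, Odd n → 3 ≤ n → ∀ (K : Type u) [Field K] [Infinite K],
      HasPolynomial K n {n - 1, n - 2, 1} ∧ (n = 7 → HasPolynomial K 7 {6, 5, 4})) := by
  have hcen : ∀ (F : Type v) (D : Type w) [Field F] [DivisionRing D] [Algebra F D]
      [Algebra.IsCentral F D], ∀ x : D, (∀ y, x * y = y * x) → ∃ c : F, algebraMap F D c = x := by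
    intro F D _ _ _ hC x hx
    have h1 : x ∈ Subalgebra.center F D := Subalgebra.mem_center_iff.mpr fun y => (hx y).symm
    exact Algebra.mem_bot.mp (hC.out h1)
  refine ⟨fun n hp h3 F D _ _ _ _ hdim => ⟨?_, ?_⟩, fun n hodd h3 K _ _ => ⟨?_, ?_⟩⟩
  · obtain ⟨x, hx, h6, h5, h1⟩ := Pool.Agent.Helper96.BJ7.prime_div hp h3 (hcen F D) hdim
    refine ⟨x, hx, fun j hj => ?_⟩
    simp only [Finset.mem_insert, Finset.mem_singleton] at hj
    rcases hj with rfl | rfl | rfl
    · exact h6
    · exact h5
    · exact h1
  · rintro rfl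
    obtain ⟨x, a, b, c, d, hx⟩ := Pool.Agent.Helper41.BJ.exists_bring (hcen F D) hdim
    refine ⟨x, ?_, fun j hj => ?_⟩
    · rw [hx]
      compute_degree!
    · rw [hx]
      simp only [Finset.mem_insert, Finset.mem_singleton] at hj
      rcases hj with rfl | rfl | rfl <;>
        simp [Polynomial.coeff_X, Polynomial.coeff_C]
  · obtain ⟨p, h1, h2⟩ := Pool.Agent.Helper96.BJ7.odd_poly n hodd h3 K
    refine ⟨p, h1, fun v j hj => ?_⟩
    simp only [Finset.mem_insert, Finset.mem_singleton] at hj
    rcases hj with rfl | rfl | rfl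
    · exact (h2 v).1
    · exact (h2 v).2.1
    · exact (h2 v).2.2
  · rintro rfl
    obtain ⟨p, h1, h2⟩ := Pool.Agent.Helper96.BJ7.seven_poly K
    refine ⟨p, h1, fun v j hj => ?_⟩
    simp only [Finset.mem_insert, Finset.mem_singleton] at hj
    rcases hj with rfl | rfl | rfl
    · exact (h2 v).1
    · exact (h2 v).2.1
    · exact (h2 v).2.2

end Pool.Agent.Results.MP_5d2531_al.ThreeCoefficients
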